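import Pool.Agent.helper63.FT.P2
import Pool.Agent.helper8.FT.P3
import Pool.Agent.helper96.FT.P4

set_option autoImplicit false

namespace Pool.Agent.helper3.FT

open Finset

/-- P6b when `gcd (h, A, A', B, X) = 1` -/
theorem pair_count_aux (h y N K : ℕ) (hN : 1 ≤ N) (hh : 1 ≤ h) (hy : Squarefree y)
    (A A' B X : ℤ)
    (hg : ∀ p : ℕ, p.Prime → (p : ℤ) ∣ h →
      ¬ ((p : ℤ) ∣ A ∧ (p : ℤ) ∣ A' ∧ (p : ℤ) ∣ B ∧ (p : ℤ) ∣ X))
    (S : Finset (ℕ × ℕ)) (hS : ∀ p ∈ S, p ∈ pairs N K y ∧ Nat.Coprime h (5 * (p.1 * p.2)) ∧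
      ((h : ℤ) ∣ F1 A A' B p.1 p.2) ∧ ((h : ℤ) ∣ F2 A' B X p.1 p.2)) :
    (S.card : ℝ) ≤ 3 ^ h.primeFactors.card * 2 ^ y.primeFactors.card *
        (1 + 2 * K * N / (h * y)) := by
  classical
  have hy0 : y ≠ 0 := hy.ne_zero
  have hfact : ∀ q : {q // q ∈ h.primeFactors}, Fact (q : ℕ).Prime :=
    fun q => ⟨Nat.prime_of_mem_primeFactors q.2⟩
  -- the class map
  let f : ℕ × ℕ → ((q : {q // q ∈ h.primeFactors}) → ZMod (q : ℕ)) × ℕ :=
    fun p => (fun q => (p.1 : ZMod (q : ℕ)) * (p.2 : ZMod (q : ℕ))⁻¹, Nat.gcd y p.1)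
  let R : (q : {q // q ∈ h.primeFactors}) → Finset (ZMod (q : ℕ)) := fun q =>
    (univ : Finset (ZMod (q : ℕ))).filter (fun r =>
      5 * (A : ZMod (q : ℕ)) * r ^ 3 - 2 * (A' : ZMod (q : ℕ)) * r + (B : ZMod (q : ℕ)) = 0 ∧
      (A' : ZMod (q : ℕ)) * r ^ 3 + 2 * (B : ZMod (q : ℕ)) * r ^ 2 - 5 * (X : ZMod (q : ℕ)) = 0)
  -- basic facts on a pair
  have hk0 : ∀ p ∈ S, ∀ q : {q // q ∈ h.primeFactors}, (p.2 : ZMod (q : ℕ)) ≠ 0 := by
    intro p hp q hz
    obtain ⟨_, h1, _, _⟩ := hS p hp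
    rw [ZMod.natCast_eq_zero_iff] at hz
    have hq : (q : ℕ) ∣ h := Nat.dvd_of_mem_primeFactors q.2
    have : (q : ℕ) ∣ Nat.gcd h (5 * (p.1 * p.2)) :=
      Nat.dvd_gcd hq (Dvd.dvd.mul_left (Dvd.dvd.mul_left hz _) _)
    rw [h1] at this
    exact (hfact q).out.one_lt.ne' (Nat.dvd_one.mp this)
  have hq5 : ∀ p ∈ S, ∀ q : {q // q ∈ h.primeFactors}, (q : ℕ) ≠ 5 := by
    intro p hp q hq
    obtain ⟨_, h1, _, _⟩ := hS p hp
    have hqh : (q : ℕ) ∣ h := Nat.dvd_of_mem_primeFactors q.2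
    rw [hq] at hqh
    have : 5 ∣ Nat.gcd h (5 * (p.1 * p.2)) := Nat.dvd_gcd hqh (Dvd.intro _ rfl)
    rw [h1] at this
    omega
  rcases S.eq_empty_or_nonempty with hSe | ⟨p0, hp0⟩
  · subst hSe
    simp only [card_empty, Nat.cast_zero]
    positivity
  have himg : S.image f ⊆ (Fintype.piFinset R) ×ˢ y.divisors := by
    intro b hb
    obtain ⟨p, hp, rfl⟩ := mem_image.mp hb
    obtain ⟨_, h1, h2, h3⟩ := hS p hp
    refine mem_product.mpr ⟨?_, Nat.mem_divisors.mpr ⟨Nat.gcd_dvd_left _ _, hy0⟩⟩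
    rw [Fintype.mem_piFinset]
    intro q
    have hk := hk0 p hp q
    have hqh : ((q : ℕ) : ℤ) ∣ (h : ℤ) := by
      exact_mod_cast Nat.dvd_of_mem_primeFactors q.2
    have e1 : ((F1 A A' B p.1 p.2 : ℤ) : ZMod (q : ℕ)) = 0 :=
      (ZMod.intCast_zmod_eq_zero_iff_dvd _ _).mpr (hqh.trans h2)
    have e2 : ((F2 A' B X p.1 p.2 : ℤ) : ZMod (q : ℕ)) = 0 :=
      (ZMod.intCast_zmod_eq_zero_iff_dvd _ _).mpr (hqh.trans h3)
    simp only [F1, F2] at e1 e2
    push_cast at e1 e2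
    simp only [R, f, mem_filter, mem_univ, true_and]
    constructor
    · field_simp
      linear_combination e1
    · field_simp
      linear_combination e2
  have hcardimg : (S.image f).card ≤ 3 ^ h.primeFactors.card * 2 ^ y.primeFactors.card := by
    refine (card_le_card himg).trans ?_
    rw [card_product, Fintype.card_piFinset]
    refine Nat.mul_le_mul ?_ ?_
    · calc ∏ q, (R q).card ≤ ∏ q : {q // q ∈ h.primeFactors}, 3 := by
            refine prod_le_prod' (fun q _ => ?_)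
            refine roots_le (q : ℕ) (hq5 p0 hp0 q) A A' B X (hg _ (hfact q).out ?_)
            exact_mod_cast Nat.dvd_of_mem_primeFactors q.2
        _ = 3 ^ h.primeFactors.card := by simp
    · rw [Nat.card_divisors hy0]
      calc ∏ x ∈ y.primeFactors, (y.factorization x + 1) ≤ ∏ x ∈ y.primeFactors, 2 := by
            refine prod_le_prod' (fun x _ => ?_)
            have := (Nat.squarefree_iff_factorization_le_one hy0).mp hy x
            omega
        _ = 2 ^ y.primeFactors.card := by simp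
  -- the fibres
  have hfib : ∀ b ∈ S.image f, (((S.filter (fun a => f a = b)).card : ℕ) : ℝ) ≤
      1 + 2 * K * N / (h * y) := by
    intro b _
    have hW : 1 ≤ h * y := Nat.mul_pos hh (Nat.pos_of_ne_zero hy0)
    have := family N K (h * y) hN hW (S.filter (fun a => f a = b)) ?_ ?_
    · push_cast at this
      exact this
    · intro p hp
      obtain ⟨h0, _⟩ := hS p (mem_filter.mp hp).1
      simp only [pairs, mem_filter, mem_product, mem_Icc] at h0
      exact ⟨h0.2.1, h0.1.1.2, h0.1.2.1, h0.1.2.2⟩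
    · intro p hp p' hp' hne
      obtain ⟨hpS, hpf⟩ := mem_filter.mp hp
      obtain ⟨hpS', hpf'⟩ := mem_filter.mp hp'
      have hff : f p = f p' := hpf.trans hpf'.symm
      obtain ⟨h0, h1, h2, h3⟩ := hS p hpS
      obtain ⟨h0', h1', h2', h3'⟩ := hS p' hpS'
      simp only [pairs, mem_filter, mem_product, mem_Icc] at h0 h0'
      obtain ⟨⟨⟨a1, a2⟩, a3, a4⟩, a5, a6, a7, a8⟩ := h0
      obtain ⟨⟨⟨b1, b2⟩, b3, b4⟩, b5, b6, b7, b8⟩ := h0'
      constructor
      · intro hz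
        apply hne
        have hz' : p.1 * p'.2 = p'.1 * p.2 := by
          have : (p.1 : ℤ) * p'.2 = p'.1 * p.2 := by linarith
          exact_mod_cast this
        have d1 : p.1 ∣ p'.1 := by
          have : p.1 ∣ p'.1 * p.2 := ⟨p'.2, hz'.symm⟩
          exact a7.dvd_of_dvd_mul_right this
        have d2 : p'.1 ∣ p.1 := by
          have : p'.1 ∣ p.1 * p'.2 := ⟨p.2, hz'⟩
          exact b7.dvd_of_dvd_mul_right this
        have e1 : p.1 = p'.1 := Nat.dvd_antisymm d1 d2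
        have e2 : p.2 = p'.2 := by
          rw [e1] at hz'
          exact (Nat.eq_of_mul_eq_mul_left (by omega) hz').symm
        exact Prod.ext e1 e2
      · -- divisibility
        have hdh : (h : ℤ) ∣ (p.1 : ℤ) * p'.2 - p'.1 * p.2 := by
          refine separation h A A' B X p.1 p.2 p'.1 p'.2 ?_ ?_ h2 h3 h2' h3' ?_ hg
          · have := Nat.isCoprime_iff_coprime.mpr h1
            push_cast at this
            exact this
          · have := Nat.isCoprime_iff_coprime.mpr h1'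
            push_cast at this
            exact this
          · intro q hq hqh
            have hqh' : q ∣ h := by exact_mod_cast hqh
            have hmem : q ∈ h.primeFactors := Nat.mem_primeFactors.mpr ⟨hq, hqh', by omega⟩
            have e1 := congrFun (congrArg Prod.fst hff) ⟨q, hmem⟩
            simp only [f] at e1
            have hk := hk0 p hpS ⟨q, hmem⟩
            have hk' := hk0 p' hpS' ⟨q, hmem⟩
            have : Fact q.Prime := ⟨hq⟩
            rw [← ZMod.intCast_zmod_eq_zero_iff_dvd]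
            push_cast
            simp only at hk hk' e1
            field_simp at e1
            linear_combination e1
        have hgy : Nat.gcd y p.1 = Nat.gcd y p'.1 := congrArg Prod.snd hff
        have hyd : (y : ℤ) ∣ (p.1 : ℤ) * p'.2 - p'.1 * p.2 := by
          obtain ⟨y2, hy2⟩ := Nat.gcd_dvd_left y p.1
          set y1 := Nat.gcd y p.1 with hy1
          have hcop : Nat.Coprime y1 y2 := by
            rw [hy2] at hy
            exact Nat.coprime_of_squarefree_mul hy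
          have c1 : (y1 : ℤ) ∣ (p.1 : ℤ) * p'.2 - p'.1 * p.2 := by
            have t1 : (y1 : ℤ) ∣ (p.1 : ℤ) := by exact_mod_cast Nat.gcd_dvd_right y p.1
            have t2 : (y1 : ℤ) ∣ (p'.1 : ℤ) := by
              rw [hgy]; exact_mod_cast Nat.gcd_dvd_right y p'.1
            exact dvd_sub (t1.mul_right _) (t2.mul_right _)
          -- y2 ∣ k, k'
          have c2 : ∀ n k : ℕ, Nat.gcd y n = y1 → y ∣ n * k → y2 ∣ k := by
            intro n k hgn hnk
            have hc : Nat.Coprime y2 n := by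
              rw [Nat.coprime_iff_gcd_eq_one]
              by_contra hne1
              obtain ⟨q, hq, hqd⟩ := Nat.exists_prime_and_dvd hne1
              have hq2 : q ∣ y2 := hqd.trans (Nat.gcd_dvd_left _ _)
              have hqn : q ∣ n := hqd.trans (Nat.gcd_dvd_right _ _)
              have hqy : q ∣ y := hy2 ▸ (hq2.mul_left _)
              have hqy1 : q ∣ y1 := hgn ▸ Nat.dvd_gcd hqy hqn
              have : q ∣ Nat.gcd y1 y2 := Nat.dvd_gcd hqy1 hq2
              rw [hcop] at this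
              exact hq.one_lt.ne' (Nat.dvd_one.mp this)
            have : y2 ∣ n * k := (Dvd.intro_left y1 hy2.symm).trans hnk
            exact hc.dvd_of_dvd_mul_left this
          have t1 : (y2 : ℤ) ∣ (p.2 : ℤ) := by exact_mod_cast c2 p.1 p.2 rfl a8
          have t2 : (y2 : ℤ) ∣ (p'.2 : ℤ) := by exact_mod_cast c2 p'.1 p'.2 hgy.symm b8
          have c3 : (y2 : ℤ) ∣ (p.1 : ℤ) * p'.2 - p'.1 * p.2 :=
            dvd_sub (t2.mul_left _) (t1.mul_left _)
          rw [hy2]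
          push_cast
          exact (Nat.isCoprime_iff_coprime.mpr hcop).mul_dvd c1 c3
        have hcop : IsCoprime (h : ℤ) (y : ℤ) := by
          rw [Nat.isCoprime_iff_coprime]
          have : Nat.Coprime h (p.1 * p.2) := Nat.Coprime.coprime_mul_left_right h1
          exact Nat.Coprime.coprime_dvd_right a8 this
        push_cast
        exact hcop.mul_dvd hdh hyd
  have hsum := card_eq_sum_card_image f S
  have : (S.card : ℝ) = ∑ b ∈ S.image f, (((S.filter (fun a => f a = b)).card : ℕ) : ℝ) := by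
    rw [← Nat.cast_sum]
    exact_mod_cast hsum
  rw [this]
  have hnn : (0 : ℝ) ≤ 1 + 2 * K * N / (h * y) := by positivity
  calc ∑ b ∈ S.image f, (((S.filter (fun a => f a = b)).card : ℕ) : ℝ)
      ≤ ∑ _b ∈ S.image f, (1 + 2 * K * N / (h * y) : ℝ) := sum_le_sum hfib
    _ = (S.image f).card * (1 + 2 * K * N / (h * y) : ℝ) := by rw [sum_const, nsmul_eq_mul]
    _ ≤ _ := by
        refine mul_le_mul_of_nonneg_right ?_ hnn
        exact_mod_cast hcardimg

/-- P6b (from P2, P3, P4) -/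
theorem pair_count (h y N K : ℕ) (hN : 1 ≤ N) (hh : 1 ≤ h) (hy : Squarefree y) (A A' B X : ℤ)
    (hA : A ≠ 0 ∨ A' ≠ 0) :
    (((pairs N K y).filter (fun p => Nat.Coprime h (5 * (p.1 * p.2)) ∧
      ((h : ℤ) ∣ F1 A A' B p.1 p.2) ∧ ((h : ℤ) ∣ F2 A' B X p.1 p.2))).card : ℝ) ≤
      3 ^ h.primeFactors.card * 2 ^ y.primeFactors.card *
        (1 + 2 * K * N * Int.gcd A A' / (h * y)) := by
  classical
  have hy0 : y ≠ 0 := hy.ne_zero
  set δ := Nat.gcd h (Nat.gcd (Int.gcd A A') (Int.gcd B X)) with hδ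
  have hδ0 : 0 < δ := Nat.gcd_pos_of_pos_left _ hh
  have dδh : δ ∣ h := Nat.gcd_dvd_left _ _
  have dδg : δ ∣ Nat.gcd (Int.gcd A A') (Int.gcd B X) := Nat.gcd_dvd_right _ _
  have dδ1 : δ ∣ Int.gcd A A' := dδg.trans (Nat.gcd_dvd_left _ _)
  have dδ2 : δ ∣ Int.gcd B X := dδg.trans (Nat.gcd_dvd_right _ _)
  have dA : (δ : ℤ) ∣ A := (Int.natCast_dvd_natCast.mpr dδ1).trans (Int.gcd_dvd_left _ _)
  have dA' : (δ : ℤ) ∣ A' := (Int.natCast_dvd_natCast.mpr dδ1).trans (Int.gcd_dvd_right _ _)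
  have dB : (δ : ℤ) ∣ B := (Int.natCast_dvd_natCast.mpr dδ2).trans (Int.gcd_dvd_left _ _)
  have dX : (δ : ℤ) ∣ X := (Int.natCast_dvd_natCast.mpr dδ2).trans (Int.gcd_dvd_right _ _)
  obtain ⟨h0, hh0⟩ := dδh
  obtain ⟨A0, hA0⟩ := dA
  obtain ⟨A0', hA0'⟩ := dA'
  obtain ⟨B0, hB0⟩ := dB
  obtain ⟨X0, hX0⟩ := dX
  have hδZ : (δ : ℤ) ≠ 0 := by exact_mod_cast hδ0.ne'
  have hh0' : 1 ≤ h0 := by
    rcases Nat.eq_zero_or_pos h0 with h0z | h0z
    · rw [h0z, mul_zero] at hh0; omega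
    · exact h0z
  have hg1 : 0 < Int.gcd A A' := Int.gcd_pos_iff.mpr hA
  have key := pair_count_aux h0 y N K hN hh0' hy A0 A0' B0 X0 ?_
    ((pairs N K y).filter (fun p => Nat.Coprime h (5 * (p.1 * p.2)) ∧
      ((h : ℤ) ∣ F1 A A' B p.1 p.2) ∧ ((h : ℤ) ∣ F2 A' B X p.1 p.2))) ?_
  · refine key.trans ?_
    have e1 : (3 : ℝ) ^ h0.primeFactors.card ≤ 3 ^ h.primeFactors.card := by
      refine pow_le_pow_right₀ (by norm_num) (card_le_card ?_)
      exact Nat.primeFactors_mono (Dvd.intro_left _ hh0.symm) (by omega)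
    have e2 : (1 + 2 * K * N / (h0 * y) : ℝ) ≤ 1 + 2 * K * N * Int.gcd A A' / (h * y) := by
      have hyr : (0 : ℝ) < y := by exact_mod_cast Nat.pos_of_ne_zero hy0
      have hh0r : (0 : ℝ) < h0 := by exact_mod_cast hh0'
      have hδr : (0 : ℝ) < δ := by exact_mod_cast hδ0
      have hle : (δ : ℝ) ≤ Int.gcd A A' := by exact_mod_cast Nat.le_of_dvd hg1 dδ1
      have : (h : ℝ) = δ * h0 := by rw [hh0]; push_cast; ring
      rw [this]
      have e3 : (2 * K * N / (h0 * y) : ℝ) = 2 * K * N * δ / (δ * h0 * y) := by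
        field_simp
      rw [e3]
      gcongr
    gcongr
  · intro p hp hph ⟨h1, h2, h3, h4⟩
    have hph' : p ∣ h0 := by exact_mod_cast hph
    have c1 : ((δ * p : ℕ) : ℤ) ∣ A := by
      rw [hA0]; push_cast; exact mul_dvd_mul_left _ h1
    have c2 : ((δ * p : ℕ) : ℤ) ∣ A' := by
      rw [hA0']; push_cast; exact mul_dvd_mul_left _ h2
    have c3 : ((δ * p : ℕ) : ℤ) ∣ B := by
      rw [hB0]; push_cast; exact mul_dvd_mul_left _ h3
    have c4 : ((δ * p : ℕ) : ℤ) ∣ X := by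
      rw [hX0]; push_cast; exact mul_dvd_mul_left _ h4
    have c5 : δ * p ∣ h := by
      rw [hh0]; exact mul_dvd_mul_left _ hph'
    have c6 : δ * p ∣ Int.gcd A A' := by
      exact_mod_cast Int.dvd_coe_gcd c1 c2
    have c7 : δ * p ∣ Int.gcd B X := by
      exact_mod_cast Int.dvd_coe_gcd c3 c4
    have c8 : δ * p ∣ δ := Nat.dvd_gcd c5 (Nat.dvd_gcd c6 c7)
    have := Nat.le_of_dvd hδ0 c8
    have hp2 := hp.two_le
    nlinarith
  · intro p hp
    obtain ⟨hp1, hp2, hp3, hp4⟩ := mem_filter.mp hp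
    refine ⟨hp1, Nat.Coprime.coprime_dvd_left (Dvd.intro_left _ hh0.symm) hp2, ?_, ?_⟩
    · have : F1 A A' B p.1 p.2 = δ * F1 A0 A0' B0 p.1 p.2 := by
        unfold F1; rw [hA0, hA0', hB0]; ring
      rw [this, hh0] at hp3
      push_cast at hp3
      exact (mul_dvd_mul_iff_left hδZ).mp hp3
    · have : F2 A' B X p.1 p.2 = δ * F2 A0' B0 X0 p.1 p.2 := by
        unfold F2; rw [hA0', hB0, hX0]; ring
      rw [this, hh0] at hp4
      push_cast at hp4
      exact (mul_dvd_mul_iff_left hδZ).mp hp4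

end Pool.Agent.helper3.FT
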