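import Pool.Agent.helper3.FT.Defs

set_option autoImplicit false

namespace Pool.Agent.helper3.FT

open Finset

/-- an integral form of `nd (p / q) ≤ 1 / M` -/
lemma nd_le_int (M : ℕ) (hM : 1 ≤ M) (p q : ℤ) (hq : 0 < q) (x : ℝ) (hx : x * q = p)
    (h : nd x ≤ 1 / M) : ∃ r : ℤ, (M : ℤ) * |p - q * r| ≤ q := by
  refine ⟨round x, ?_⟩
  have hqr : (0 : ℝ) < q := by exact_mod_cast hq
  have hMr : (0 : ℝ) < M := by exact_mod_cast hM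
  unfold nd at h
  have h1 : (M : ℝ) * (|x - round x| * q) ≤ q := by
    have : (M : ℝ) * |x - round x| ≤ 1 := by
      rw [le_div_iff₀ hMr] at h
      linarith
    nlinarith
  have h2 : |x - round x| * q = |(p : ℝ) - q * (round x : ℤ)| := by
    rw [← abs_of_pos hqr, ← abs_mul, abs_of_pos hqr, ← hx]
    congr 1
    ring
  rw [h2] at h1
  exact_mod_cast h1

/-- E4 -/
theorem dual_map (Q N K M G n k h : ℕ) (hn : 1 ≤ n) (hnN : n ≤ N) (hNn : N < 2 * n)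
    (hk : 1 ≤ k) (hkK : k ≤ K) (hKk : K < 2 * k) (hKN : K ≤ N) (hMG : M * G = 4 * Q * N ^ 2)
    (hM : N ^ 2 ≤ M) (hMQ : M ≤ Q) (hcop : Nat.Coprime n k) (hh : 1 ≤ h)
    (hhH : 128 * Q * h ≤ N ^ 3 * K)
    (α β γ : ℤ) (hr : Res n k α β γ) (u v : ℤ) (hu : |u| ≤ 4 * M) (hv : |v| ≤ 4 * G)
    (h1 : nd (2 * (h * α / ((n : ℝ) ^ 3 * k)) * u + h * β / ((n : ℝ) ^ 3 * k) * v) ≤ 1 / M)
    (h2 : nd (h * β / ((n : ℝ) ^ 3 * k) * u + 2 * (h * γ / ((n : ℝ) ^ 3 * k)) * v) ≤ 1 / G) :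
    ∃ A A' B X : ℤ, |A| ≤ 3 * K ∧ |A'| ≤ 3 * K ∧ |B| ≤ 15 * N ∧ |X| ≤ 15 * N ∧
      5 * h * v = F1 A A' B n k ∧ 5 * h * u = F2 A' B X n k := by
  have hN1 : 1 ≤ N := hn.trans hnN
  have hM1 : 1 ≤ M := by
    have : 1 ≤ N ^ 2 := Nat.one_le_pow _ _ hN1
    omega
  have hG4 : 4 * N ^ 2 ≤ G := by
    have : M * (4 * N ^ 2) ≤ M * G := by
      rw [hMG]; nlinarith
    exact Nat.le_of_mul_le_mul_left this hM1
  have hG1 : 1 ≤ G := by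
    have : 1 ≤ N ^ 2 := Nat.one_le_pow _ _ hN1
    omega
  have hn0 : (0 : ℝ) < n := by exact_mod_cast hn
  have hk0 : (0 : ℝ) < k := by exact_mod_cast hk
  have hq : (0 : ℤ) < (n : ℤ) ^ 3 * k := by positivity
  obtain ⟨r1, hr1⟩ := nd_le_int M hM1 (h * (2 * α * u + β * v)) ((n : ℤ) ^ 3 * k) hq _
    (by push_cast; field_simp) h1
  obtain ⟨r2, hr2⟩ := nd_le_int G hG1 (h * (β * u + 2 * γ * v)) ((n : ℤ) ^ 3 * k) hq _
    (by push_cast; field_simp) h2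
  obtain ⟨a, ha⟩ := hr.hα
  obtain ⟨b, hb⟩ := hr.hβ
  obtain ⟨c, hc⟩ := hr.hγ
  obtain ⟨a', ha'⟩ := hr.kα
  obtain ⟨b', hb'⟩ := hr.kβ
  obtain ⟨c', hc'⟩ := hr.kγ
  have hcopZ : IsCoprime (n : ℤ) (k : ℤ) := Nat.isCoprime_iff_coprime.mpr hcop
  set ξ : ℤ := h * (2 * α * u + β * v) - (n : ℤ) ^ 3 * k * r1 with hξ
  set Ξ : ℤ := h * (β * u + 2 * γ * v) - (n : ℤ) ^ 3 * k * r2 with hΞ
  -- A
  obtain ⟨A, hA⟩ : (n : ℤ) ^ 3 ∣ h * v + k ^ 2 * ξ := by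
    refine ⟨2 * h * a * u * k ^ 2 + h * v * b - k ^ 3 * r1, ?_⟩
    have e1 : (h : ℤ) * v + k ^ 2 * ξ = h * v * (β * k ^ 2 + 1) + 2 * h * α * u * k ^ 2
        - (n : ℤ) ^ 3 * k * k ^ 2 * r1 := by rw [hξ]; ring
    rw [e1, hb, ha]; ring
  -- X
  obtain ⟨X, hX⟩ : (k : ℤ) ∣ Ξ := by
    refine ⟨h * (b' * u + 2 * c' * v) - (n : ℤ) ^ 3 * r2, ?_⟩
    rw [hΞ, hb', hc']; ring
  have hcop3 : IsCoprime ((n : ℤ) ^ 3) ((k : ℤ) ^ 2) := hcopZ.pow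
  obtain ⟨A', hA'⟩ : (n : ℤ) ^ 3 ∣ h * u + 2 * n ^ 2 * ξ + k ^ 3 * X := by
    refine hcop3.dvd_of_dvd_mul_left (z := (h * u + 2 * n ^ 2 * ξ + k ^ 3 * X : ℤ)) ?_
    refine ⟨2 * n ^ 2 * A + h * u * b * k ^ 2 + 2 * h * v * c - k ^ 5 * r2, ?_⟩
    have e1 : (k : ℤ) ^ 2 * (h * u + 2 * n ^ 2 * ξ + k ^ 3 * X) =
        2 * n ^ 2 * (h * v + k ^ 2 * ξ) - 2 * n ^ 2 * h * v + k ^ 2 * h * u + k ^ 4 * (k * X) := by
      ring
    rw [e1, hA, ← hX, hΞ]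
    have e2 : (k : ℤ) ^ 4 * (h * (β * u + 2 * γ * v) - (n : ℤ) ^ 3 * k * r2) =
        h * u * k ^ 2 * (β * k ^ 2 + 1) - h * u * k ^ 2 + 2 * h * v * (γ * k ^ 4 - n ^ 2)
          + 2 * h * v * n ^ 2 - (n : ℤ) ^ 3 * k ^ 5 * r2 := by ring
    rw [e2, hb, hc]; ring
  obtain ⟨B, hB⟩ : (k : ℤ) ∣ 2 * n * A' - 5 * ξ := by
    have hcop2 : IsCoprime (k : ℤ) ((n : ℤ) ^ 2) := hcopZ.symm.pow_right
    refine hcop2.dvd_of_dvd_mul_left ?_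
    have e1 : (n : ℤ) ^ 2 * (2 * n * A' - 5 * ξ) = 2 * (n ^ 3 * A') - 5 * n ^ 2 * ξ := by ring
    rw [e1, ← hA']
    have e2 : 2 * ((h : ℤ) * u + 2 * n ^ 2 * ξ + k ^ 3 * X) - 5 * n ^ 2 * ξ =
        2 * h * u - n ^ 2 * ξ + k * (2 * k ^ 2 * X) := by ring
    rw [e2]
    refine dvd_add ?_ (Dvd.intro _ rfl)
    refine ⟨-(2 * h * u * a' + h * n ^ 2 * b' * v - n ^ 5 * r1), ?_⟩
    have e3 : 2 * (h : ℤ) * u - n ^ 2 * ξ = -(2 * h * u * (α * n ^ 2 - 1)) - h * n ^ 2 * β * v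
        + n ^ 5 * k * r1 := by rw [hξ]; ring
    rw [e3, ha', hb']; ring
  -- sizes
  have hnp : (0 : ℤ) < n := by exact_mod_cast hn
  have hkp : (0 : ℤ) < k := by exact_mod_cast hk
  have hNp : (0 : ℤ) < N := by exact_mod_cast hN1
  have hKp : (0 : ℤ) < K := by exact_mod_cast (hk.trans hkK)
  have hMp : (0 : ℤ) < M := by exact_mod_cast hM1
  have hhp : (0 : ℤ) < h := by exact_mod_cast hh
  zify at hnN hNn hkK hKk hKN hMG hM hMQ hhH hG4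
  have hn3 : (0 : ℤ) < (n : ℤ) ^ 3 := by positivity
  have hN3 : (N : ℤ) ^ 3 ≤ 8 * n ^ 3 := by
    have : (N : ℤ) ^ 3 ≤ (2 * n) ^ 3 := pow_le_pow_left₀ hNp.le hNn.le 3
    calc (N : ℤ) ^ 3 ≤ (2 * n) ^ 3 := this
      _ = 8 * n ^ 3 := by ring
  have hn2 : (n : ℤ) ^ 2 ≤ N ^ 2 := pow_le_pow_left₀ hnp.le hnN 2
  have hk2 : (k : ℤ) ^ 2 ≤ N ^ 2 := pow_le_pow_left₀ hkp.le (hkK.trans hKN) 2
  have hk3 : (k : ℤ) ^ 3 ≤ K * N ^ 2 := by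
    calc (k : ℤ) ^ 3 = (k : ℤ) * (k : ℤ) ^ 2 := by ring
      _ ≤ (K : ℤ) * (N : ℤ) ^ 2 := mul_le_mul hkK hk2 (by positivity) hKp.le
  have hQh : 16 * (Q : ℤ) * h ≤ n ^ 3 * K := by
    have : 128 * (Q : ℤ) * h ≤ 8 * n ^ 3 * K := hhH.trans (mul_le_mul_of_nonneg_right hN3 hKp.le)
    linarith
  have hξN : (N : ℤ) ^ 2 * |ξ| ≤ n ^ 3 * k :=
    (mul_le_mul_of_nonneg_right hM (abs_nonneg _)).trans hr1
  have hξ1 : |ξ| ≤ n * k := by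
    have : (N : ℤ) ^ 2 * |ξ| ≤ N ^ 2 * (n * k) := by
      calc (N : ℤ) ^ 2 * |ξ| ≤ n ^ 3 * k := hξN
        _ = n ^ 2 * (n * k) := by ring
        _ ≤ N ^ 2 * (n * k) := mul_le_mul_of_nonneg_right hn2 (by positivity)
    exact le_of_mul_le_mul_left this (by positivity)
  have hXG : (G : ℤ) * |X| ≤ n ^ 3 := by
    rw [hX, abs_mul, abs_of_pos hkp] at hr2
    have : (k : ℤ) * (G * |X|) ≤ k * n ^ 3 := by linarith
    exact le_of_mul_le_mul_left this hkp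
  have hXN : 4 * (N : ℤ) ^ 2 * |X| ≤ n ^ 3 :=
    (mul_le_mul_of_nonneg_right hG4 (abs_nonneg _)).trans hXG
  have hn3N : (n : ℤ) ^ 3 ≤ N ^ 2 * N := by
    calc (n : ℤ) ^ 3 ≤ N ^ 3 := pow_le_pow_left₀ hnp.le hnN 3
      _ = N ^ 2 * N := by ring
  have hXb : 4 * |X| ≤ N := by
    have : (N : ℤ) ^ 2 * (4 * |X|) ≤ N ^ 2 * N := by linarith
    exact le_of_mul_le_mul_left this (by positivity)
  -- |A|
  have hAb : |A| ≤ 2 * K := by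
    have e1 : |A| * n ^ 3 ≤ 4 * h * G + k ^ 2 * |ξ| := by
      have : |(n : ℤ) ^ 3 * A| ≤ h * |v| + k ^ 2 * |ξ| := by
        rw [← hA]
        refine (abs_add_le _ _).trans (le_of_eq ?_)
        rw [abs_mul, abs_mul, abs_of_pos hhp, abs_of_nonneg (by positivity : (0:ℤ) ≤ (k:ℤ) ^ 2)]
      rw [abs_mul, abs_of_pos hn3] at this
      nlinarith [mul_le_mul_of_nonneg_left hv hhp.le]
    have e2 : (M : ℤ) * (|A| * n ^ 3) ≤ M * (2 * K * n ^ 3) := by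
      calc (M : ℤ) * (|A| * n ^ 3) ≤ M * (4 * h * G + k ^ 2 * |ξ|) :=
            mul_le_mul_of_nonneg_left e1 hMp.le
        _ = 4 * h * (M * G) + k ^ 2 * (M * |ξ|) := by ring
        _ ≤ 4 * h * (M * G) + k ^ 2 * (n ^ 3 * k) := by
            have := mul_le_mul_of_nonneg_left hr1 (by positivity : (0:ℤ) ≤ (k:ℤ) ^ 2)
            linarith
        _ = (16 * Q * h) * N ^ 2 + n ^ 3 * k ^ 3 := by rw [hMG]; ring
        _ ≤ (n ^ 3 * K) * N ^ 2 + n ^ 3 * (K * N ^ 2) := by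
            have t1 := mul_le_mul_of_nonneg_right hQh (by positivity : (0:ℤ) ≤ (N:ℤ) ^ 2)
            have t2 := mul_le_mul_of_nonneg_left hk3 hn3.le
            linarith
        _ = N ^ 2 * (2 * K * n ^ 3) := by ring
        _ ≤ M * (2 * K * n ^ 3) := mul_le_mul_of_nonneg_right hM (by positivity)
    have e3 := le_of_mul_le_mul_left e2 hMp
    exact le_of_mul_le_mul_right e3 hn3
  have hA'b : 4 * |A'| ≤ 10 * K := by
    have e1 : n ^ 3 * |A'| ≤ h * |u| + 2 * n ^ 2 * |ξ| + k ^ 3 * |X| := by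
      have : |(n : ℤ) ^ 3 * A'| ≤ h * |u| + 2 * n ^ 2 * |ξ| + k ^ 3 * |X| := by
        rw [← hA']
        refine (abs_add_three _ _ _).trans (le_of_eq ?_)
        rw [abs_mul (h : ℤ), abs_mul (2 * (n : ℤ) ^ 2), abs_mul ((k : ℤ) ^ 3), abs_of_pos hhp,
          abs_of_nonneg (by positivity : (0:ℤ) ≤ (k:ℤ) ^ 3),
          abs_of_nonneg (by positivity : (0:ℤ) ≤ 2 * (n:ℤ) ^ 2)]
      rwa [abs_mul, abs_of_pos hn3] at this
    have e2 : 4 * (h * |u|) ≤ n ^ 3 * (K : ℤ) := by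
      calc 4 * ((h : ℤ) * |u|) ≤ 4 * (h * (4 * M)) := by
            have := mul_le_mul_of_nonneg_left hu hhp.le
            linarith
        _ ≤ 4 * (h * (4 * Q)) := by
            have := mul_le_mul_of_nonneg_left hMQ hhp.le
            linarith
        _ = 16 * Q * h := by ring
        _ ≤ _ := hQh
    have e3 : (n : ℤ) ^ 2 * |ξ| ≤ n ^ 3 * K := by
      calc (n : ℤ) ^ 2 * |ξ| ≤ N ^ 2 * |ξ| := mul_le_mul_of_nonneg_right hn2 (abs_nonneg _)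
        _ ≤ n ^ 3 * k := hξN
        _ ≤ n ^ 3 * K := mul_le_mul_of_nonneg_left hkK hn3.le
    have e4 : 4 * ((k : ℤ) ^ 3 * |X|) ≤ n ^ 3 * K := by
      calc 4 * ((k : ℤ) ^ 3 * |X|) ≤ 4 * ((K * N ^ 2) * |X|) := by
            have := mul_le_mul_of_nonneg_right hk3 (abs_nonneg X)
            linarith
        _ = K * (4 * N ^ 2 * |X|) := by ring
        _ ≤ K * n ^ 3 := mul_le_mul_of_nonneg_left hXN hKp.le
        _ = n ^ 3 * K := by ring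
    have e5 : (n : ℤ) ^ 3 * (4 * |A'|) ≤ n ^ 3 * (10 * K) := by linarith
    exact le_of_mul_le_mul_left e5 hn3
  have hBb : |B| ≤ 15 * n := by
    have e1 : (k : ℤ) * |B| ≤ 2 * n * |A'| + 5 * |ξ| := by
      have : |(k : ℤ) * B| ≤ 2 * n * |A'| + 5 * |ξ| := by
        rw [← hB]
        refine (abs_sub _ _).trans (le_of_eq ?_)
        rw [abs_mul (2 * (n : ℤ)), abs_mul (5 : ℤ),
          abs_of_nonneg (by positivity : (0:ℤ) ≤ 2 * (n:ℤ))]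
        simp
      rwa [abs_mul, abs_of_pos hkp] at this
    have e2 : |A'| ≤ 5 * k := by linarith
    have e3 : 2 * (n : ℤ) * |A'| ≤ 2 * n * (5 * k) :=
      mul_le_mul_of_nonneg_left e2 (by positivity)
    have e4 : (k : ℤ) * |B| ≤ k * (15 * n) := by linarith
    exact le_of_mul_le_mul_left e4 hkp
  refine ⟨A, A', B, X, by linarith, by linarith, by linarith, by linarith [abs_nonneg X], ?_, ?_⟩
  · unfold F1
    have t1 : (h : ℤ) * v = n ^ 3 * A - k ^ 2 * ξ := by linarith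
    have t2 : 5 * ξ = 2 * n * A' - k * B := by linarith
    calc 5 * (h : ℤ) * v = 5 * (h * v) := by ring
      _ = 5 * (n ^ 3 * A) - k ^ 2 * (5 * ξ) := by rw [t1]; ring
      _ = _ := by rw [t2]; ring
  · unfold F2
    have t1 : (h : ℤ) * u = n ^ 3 * A' - 2 * n ^ 2 * ξ - k ^ 3 * X := by linarith
    have t2 : 5 * ξ = 2 * n * A' - k * B := by linarith
    calc 5 * (h : ℤ) * u = 5 * (h * u) := by ring
      _ = 5 * (n ^ 3 * A') - 2 * n ^ 2 * (5 * ξ) - 5 * k ^ 3 * X := by rw [t1]; ring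
      _ = _ := by rw [t2]; ring

end Pool.Agent.helper3.FT
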